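import Mathlib
import Pool.Agent.Helper546.TFun

set_option autoImplicit false
open MeasureTheory AddCircle Filter
open Pool.Agent.Helper546.Toep

namespace Pool.Agent.Results.MP_0811ac_an.GelfandRadius

/-- Let `φ` be a bounded symbol such that for every `f` in `H^∞` the analytic projection of `φ f`
is in `H^∞`. Then the Toeplitz operator `T` with symbol `φ` is bounded on `H^∞` and
`‖T ^ n‖ ^ (1 / n)` tends to the essential supremum norm of `φ`. -/
theorem result (φ : UnitAddCircle → ℂ) (hφ : MemLp φ ⊤ (haarAddCircle (T := (1 : ℝ))))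
    (h : ∀ f : UnitAddCircle → ℂ, HInf f → ∃ g : UnitAddCircle → ℂ, HInf g ∧ IsProj φ f g) :
    BddAbove {r : ℝ | ∃ f g : UnitAddCircle → ℂ, HInf f ∧ HInf g ∧ IsProj φ f g ∧
      (eLpNorm f ⊤ (haarAddCircle (T := (1 : ℝ)))).toReal ≤ 1 ∧
      r = (eLpNorm g ⊤ (haarAddCircle (T := (1 : ℝ)))).toReal} ∧
    Tendsto (fun n : ℕ => powNorm φ n ^ (1 / n : ℝ)) atTop
      (nhds (eLpNorm φ ⊤ (haarAddCircle (T := (1 : ℝ)))).toReal) :=
  fun_form hφ h

end Pool.Agent.Results.MP_0811ac_an.GelfandRadius
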